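import Pool.Agent.Run7.h587.Ad.Def
import Pool.Agent.Run7.h587.Ad.Zar

/-!
# Mazur's question: double covers for which all local Zariski closures, at all places, are empty or
the whole variety

`X : w² = f(z₁, …, z_n)`, `n ≥ 1`, where `f` has degree at most `4` in each variable: an affine open
subset of a double cover of `(ℙ¹)ⁿ` branched along a divisor of multidegree `(4, …, 4)`, for `n = 2` a
K3 surface, and in general a Calabi–Yau variety of dimension `n`, if the divisor is smooth.

`f` is adapted at `2` if its coefficients are `2`-integral, and if for all the points `(z, w)` of `X`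
over `ℚ₂` the coordinates `z_i` are `2`-adic integers, `w ≠ 0`, the curves of genus one in the
directions of the coordinates through the point are smooth, and `2 w` is `2`-adically smaller than the
partial derivatives `∂f/∂z_i` at `z`. For example, by (4), all the polynomials
`f ≡ 3 ∏ (z_i² + z_i + 1)² + ∑ (z_i² + z_i) + 2` modulo `4` with integral coefficients and of degree at
most `4` in each variable are adapted at `2`.

Let `K` be a field of characteristic zero with an embedding `σ₀` in `ℚ₂`, for example `ℚ`, or a number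
field with a place of degree one above `2`, and let `f` be a polynomial over `K` such that `σ₀ f` is
adapted. We consider the real places of `K` and the embeddings of `K` in the fields `ℚ_p`, for all
primes `p`; for `K = ℚ` these are all the places.

(1) Let `x` be a point of `X(K_v)`. If `x` is not in the closure of `X(K)`, some neighbourhood of `x`
contains no `K`-point of `X`; otherwise the `K`-points in each neighbourhood of `x` are Zariski dense in
`X`. So the local Zariski closure `Z_x` in Mazur's question is empty or equal to `X`. The same holds for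
the points at infinity of the projective models: there are no `K`-points at infinity, and the `K`-points
in each open subset of `X(K_v)` which contains a `K`-point are Zariski dense.

(2) The closure of `X(K)` in `X(K_v)` is a neighbourhood of each `K`-point.

(3) The space `X(ℚ₂)` is compact and the closure of `X(K)` is open in it.

(5) The class in (4) contains many varieties with a rational point: the set of those `g` for which the
variety of `f = 3 ∏ (z_i² + z_i + 1)² + ∑ (z_i² + z_i) + 2 + 4 g` has a rational point over `z = 0` is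
Zariski dense in the space of all polynomials of degree at most `4` in each variable.

Idea of the proof. The two points `(z, w)` and `(z, -w)` on a curve of genus one `w² = q(t)`,
`q(0) = w²`, in the direction of a coordinate are congruent modulo `2`. Their difference in the Jacobian
has the abscissa `q₁² / (4 w²) - q₂`, which is not a `2`-adic integer if `2 w` is smaller than
`q₁ = ∂f/∂z_i`. Doubling makes the abscissa larger, so the difference has infinite order, for all the
points over `ℚ₂`. By the theorem `OpenAwayFromTorsion` (`MP_ed3816_nt`) on the closure of the rational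
points near points of infinite order, the closure in `X(ℚ₂)` is open, and the closure in `X(K_v)` is a
neighbourhood of each `K`-point, for all `v`.
-/

set_option autoImplicit false

namespace Pool.Agent.Results.MP_f9f755_nt.AdaptedAtTwo

open MvPolynomial Pool.Agent.Run7.h587.Ad

/-- The polynomial `q(t) = F(z + t e_i)`. -/
noncomputable def line {K : Type} [Field K] {n : ℕ} (F : MvPolynomial (Fin n) K) (z : Fin n → K)
    (i : Fin n) : Polynomial K :=
  aeval (fun k => Polynomial.C (z k) + Polynomial.C ((Pi.single i 1 : Fin n → K) k) *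
    Polynomial.X) F

/-- The Jacobian of the curve `w² = q(t)`, where `q` is a polynomial of degree at most `4`. The curve
is smooth of genus one if the discriminant of the Jacobian is not zero. -/
noncomputable def jacobian {K : Type} [Field K] (q : Polynomial K) : WeierstrassCurve K :=
  ⟨0, q.coeff 2, 0, q.coeff 1 * q.coeff 3 - 4 * q.coeff 0 * q.coeff 4,
    q.coeff 1 ^ 2 * q.coeff 4 + q.coeff 0 * q.coeff 3 ^ 2 - 4 * q.coeff 0 * q.coeff 2 * q.coeff 4⟩

/-- `F` is adapted: the degree in each variable is at most `4`, the coefficients are integral, and at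
all the points of `w² = F(z)` over `ℚ₂` the coordinates `z_i` are integral, `w ≠ 0`, the curves in the
directions of the coordinates are smooth, and `2 w` is smaller than the partial derivatives. -/
def Adapted {n : ℕ} (F : MvPolynomial (Fin n) ℚ_[2]) : Prop :=
  (∀ i, F.degreeOf i ≤ 4) ∧ (∀ m, ‖F.coeff m‖ ≤ 1) ∧
  ∀ (z : Fin n → ℚ_[2]) (w : ℚ_[2]), w ^ 2 = eval z F → w ≠ 0 ∧
    ∀ i, ‖z i‖ ≤ 1 ∧ ‖2 * w‖ < ‖eval z (pderiv i F)‖ ∧ (jacobian (line F z i)).Δ ≠ 0

/-- The points `(z, w)` of the variety `w² = F(z)`. -/
def points {K : Type} [Field K] {n : ℕ} (F : MvPolynomial (Fin n) K) : Set ((Fin n → K) × K) :=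
  {P | P.2 ^ 2 = eval P.1 F}

/-- The image of a point under an embedding of fields. -/
def image {K L : Type} [Field K] [Field L] (φ : K →+* L) {n : ℕ} (P : (Fin n → K) × K) :
    (Fin n → L) × L :=
  (fun j => φ (P.1 j), φ P.2)

/-- The closure of the set of the `K`-points in the space of the `L`-points. -/
def Cl {K L : Type} [Field K] [NormedField L] {n : ℕ} (f : MvPolynomial (Fin n) K) (φ : K →+* L) :
    Set ((Fin n → L) × L) :=
  closure {S | ∃ P ∈ points f, S = image φ P}

/-- The `K`-points which lie in the set `V` are Zariski dense: a polynomial in `w` and `z` which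
vanishes at all of them is divisible by `w² - f`. -/
def DenseIn {K L : Type} [Field K] [Field L] {n : ℕ} (f : MvPolynomial (Fin n) K) (φ : K →+* L)
    (V : Set ((Fin n → L) × L)) : Prop :=
  ∀ g : MvPolynomial (Option (Fin n)) K,
    (∀ P ∈ points f, image φ P ∈ V → eval (fun o => o.elim P.2 P.1) g = 0) →
      (X none ^ 2 - rename some f) ∣ g

/-- For all the points of `X(L)` the local Zariski closure is empty or the whole variety; the
`K`-points in each open set of `L`-points which contains a `K`-point are Zariski dense; and the closure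
of the set of the `K`-points is a neighbourhood of each of them in `X(L)`. -/
def Good {K L : Type} [Field K] [NormedField L] {n : ℕ} (f : MvPolynomial (Fin n) K) (φ : K →+* L) :
    Prop :=
  (∀ x ∈ points (map φ f), (∃ V ∈ nhds x, ∀ P ∈ points f, image φ P ∉ V) ∨
    ∀ V ∈ nhds x, DenseIn f φ V) ∧
  (∀ V : Set ((Fin n → L) × L), IsOpen V → (∃ P ∈ points f, image φ P ∈ V) → DenseIn f φ V) ∧
  ∀ P ∈ points f, ∃ U ∈ nhds (image φ P), ∀ S ∈ U, S ∈ points (map φ f) → S ∈ Cl f φ

/-- The polynomials `3 ∏ (z_i² + z_i + 1)² + ∑ (z_i² + z_i) + 2 + 4 g`. -/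
noncomputable def member {n : ℕ} (g : MvPolynomial (Fin n) ℤ) : MvPolynomial (Fin n) ℤ :=
  3 * ∏ i, (X i ^ 2 + X i + 1) ^ 2 + ∑ i, (X i ^ 2 + X i) + 2 + 4 * g

/-- The polynomial with the coefficients `c`, of degree at most `4` in each variable. -/
noncomputable def poly {n : ℕ} (c : (Fin n → Fin 5) → ℤ) : MvPolynomial (Fin n) ℤ :=
  ∑ e, C (c e) * ∏ i, X i ^ (e i : ℕ)

lemma adapted_iff {n : ℕ} (F : MvPolynomial (Fin n) ℚ_[2]) :
    Adapted F ↔ Pool.Agent.Run7.h587.Ad.Adapted F := by
  rw [← adT_iff]
  exact Iff.rfl

lemma good_of {K L : Type} [Field K] [CharZero K] [NontriviallyNormedField L] [CompleteSpace L]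
    [CharZero L] {σ₀ : K →+* ℚ_[2]} {n : ℕ} (hn : n ≠ 0) {f : MvPolynomial (Fin n) K}
    (hf : Pool.Agent.Run7.h587.Ad.Adapted (f.map σ₀)) (φ : K →+* L)
    (ho : ∀ P ∈ points f, ∃ U ∈ nhds (image φ P), ∀ S ∈ U, S ∈ points (map φ f) → S ∈ Cl f φ) :
    Good f φ := by
  have key : ∀ x ∈ Cl f φ, ∀ V ∈ nhds x, DenseIn f φ V := by
    intro x hx V hV g hg
    obtain ⟨_, P, hP, -⟩ := (closure_nonempty_iff.1 ⟨x, hx⟩)
    exact zar φ (not_sq hf hn hP) (fun P hP => ne_K hf hP) ho hx hV hg
  refine ⟨fun x _ => ?_, fun V hV hP => ?_, ho⟩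
  · by_cases hx : x ∈ Cl f φ
    · exact Or.inr (key x hx)
    · refine Or.inl ⟨(Cl f φ)ᶜ, isClosed_closure.isOpen_compl.mem_nhds hx, fun P hP h => ?_⟩
      exact h (subset_closure ⟨P, hP, rfl⟩)
  · obtain ⟨P, hP, h⟩ := hP
    exact key _ (subset_closure ⟨P, hP, rfl⟩) V (hV.mem_nhds h)

/-- **Mazur's question for adapted double covers.** -/
theorem result :
    (∀ (K : Type) [Field K] [CharZero K] (σ₀ : K →+* ℚ_[2]) (n : ℕ) (f : MvPolynomial (Fin n) K),
      n ≠ 0 → Adapted (map σ₀ f) →
      -- (1), (2) the `p`-adic places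
      (∀ (p : ℕ) [Fact p.Prime] (σ : K →+* ℚ_[p]), Good f σ) ∧
      -- (1), (2) the real places
      (∀ τ : K →+* ℝ, Good f τ) ∧
      -- (3) the closure in the compact space `X(ℚ₂)` is open
      (IsCompact (points (map σ₀ f)) ∧ ∃ O : Set ((Fin n → ℚ_[2]) × ℚ_[2]), IsOpen O ∧
        Cl f σ₀ = O ∩ points (map σ₀ f))) ∧
    -- (4) the residue class modulo `4`
    (∀ (n : ℕ) (g : MvPolynomial (Fin n) ℤ), (∀ i, g.degreeOf i ≤ 4) →
      Adapted (map (Int.castRingHom ℚ_[2]) (member g))) ∧
    -- (5) the members with a rational point over `z = 0` are Zariski dense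
    (∀ (n : ℕ) (P : MvPolynomial (Fin n → Fin 5) ℂ), P ≠ 0 →
      ∃ (c : (Fin n → Fin 5) → ℤ) (w : ℤ), eval (fun e => (c e : ℂ)) P ≠ 0 ∧
        w ^ 2 = eval (fun _ => 0) (member (poly c))) := by
  refine ⟨fun K _ _ σ₀ n f hn hf => ?_, ?_, ?_⟩
  · have hf' := (adapted_iff _).1 hf
    refine ⟨fun p hp σ => good_of hn hf' σ fun P hP => open_p hf' σ hP,
      fun τ => good_of hn hf' τ fun P hP => open_real hf' τ hP, compact_two hf', ?_⟩
    refine ⟨interior {y | y ∈ points (map σ₀ f) → y ∈ Cl f σ₀}, isOpen_interior, ?_⟩
    ext x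
    constructor
    · intro hx
      refine ⟨?_, on_of_cl hx⟩
      obtain ⟨U, hU, h⟩ := open_two hf' hx
      exact mem_interior_iff_mem_nhds.2 (Filter.mem_of_superset hU h)
    · rintro ⟨h1, h3⟩
      exact interior_subset h1 h3
  · intro n g hg
    exact (adapted_iff _).2 ((adT_iff _).1 (mem_adT hg))
  · intro n P hP
    obtain ⟨c, w, h4, h5⟩ := exist hP
    rw [← mem_eq] at h5
    exact ⟨c, w, h4, h5⟩

end Pool.Agent.Results.MP_f9f755_nt.AdaptedAtTwo
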