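import Pool.Agent.Run7.h846.MqFin
import Pool.Agent.W279.Tri.LocComp

/-!
# Mazur's question for determinantal quartic surfaces (Cayley–Oguiso K3 surfaces)

`K` is a number field and `T` is a `4 × 4 × 4` array over `K`, that is, a trilinear form
`T(x, y, z)`.  The quartic surface `X` is given by `det T(x, ·, ·) = 0` in `ℙ³`.  We assume that
this quartic is irreducible over `K` and that the matrices `T(x, ·, ·)`, `T(·, y, ·)`,
`T(·, ·, z)` have rank at least three at all nonzero vectors over an algebraic closure; both hold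
for a general `T`.  For a general `T` the surface `X` is a K3 surface with Picard lattice
`4(a² + 3ab + b²)`: it contains no curve of arithmetic genus zero or one, so it has no elliptic
fibration, and it has the fixed point free automorphism of positive entropy of Cayley and Oguiso.

At all the non-archimedean places of nondegenerate reduction (all but finitely many places) we
find the local Zariski closures of the rational points of `X`: each of them is `X` or a subset of
a finite set of rational points which does not depend on the place, and it is `X` at all the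
rational points outside of this finite set.
-/

set_option autoImplicit false

namespace Pool.Agent.Results.MP_f9f755_nt.DeterminantalQuartics

open MvPolynomial

section matrices

variable {F : Type} [CommRing F]

/-- The matrix `S(x, ·, ·)` of a trilinear form `S`. -/
def mat₁ (S : Fin 4 → Fin 4 → Fin 4 → F) (x : Fin 4 → F) : Matrix (Fin 4) (Fin 4) F :=
  Matrix.of fun j l => ∑ i, S i j l * x i

/-- The matrix `S(·, x, ·)` of a trilinear form `S` (transposed). -/
def mat₂ (S : Fin 4 → Fin 4 → Fin 4 → F) (x : Fin 4 → F) : Matrix (Fin 4) (Fin 4) F :=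
  Matrix.of fun l i => ∑ j, S i j l * x j

/-- The matrix `S(·, ·, x)` of a trilinear form `S`. -/
def mat₃ (S : Fin 4 → Fin 4 → Fin 4 → F) (x : Fin 4 → F) : Matrix (Fin 4) (Fin 4) F :=
  Matrix.of fun i j => ∑ l, S i j l * x l

end matrices

/-- The quartic form `det T(x, ·, ·)`. -/
noncomputable def quartic {K : Type} [Field K] (T : Fin 4 → Fin 4 → Fin 4 → K) :
    MvPolynomial (Fin 4) K :=
  (mat₁ (fun i j l => C (T i j l)) X).det

/-- The matrices `T(x, ·, ·)`, `T(·, x, ·)` and `T(·, ·, x)` have rank at least three (that is,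
their adjugate matrix is not zero) at every nonzero vector `x` over an algebraic closure of `K`. -/
def Nondegenerate {K : Type} [Field K] (T : Fin 4 → Fin 4 → Fin 4 → K) : Prop :=
  ∀ x : Fin 4 → AlgebraicClosure K, x ≠ 0 →
    (mat₁ (fun i j l => algebraMap K (AlgebraicClosure K) (T i j l)) x).adjugate ≠ 0 ∧
    (mat₂ (fun i j l => algebraMap K (AlgebraicClosure K) (T i j l)) x).adjugate ≠ 0 ∧
    (mat₃ (fun i j l => algebraMap K (AlgebraicClosure K) (T i j l)) x).adjugate ≠ 0

/-- `T` is integral, and the three matrices have rank at least three modulo the maximal ideal (some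
entry of their adjugate is a unit) at all the primitive vectors over the completion `L` where
they are singular. -/
def NondegenerateReduction {K L : Type} [Field K] [NontriviallyNormedField L] (σ : K →+* L)
    (T : Fin 4 → Fin 4 → Fin 4 → K) : Prop :=
  (∀ i j l, ‖σ (T i j l)‖ ≤ 1) ∧
  ∀ x : Fin 4 → L, (∀ i, ‖x i‖ ≤ 1) → (∃ i, ‖x i‖ = 1) →
    ((mat₁ (fun i j l => σ (T i j l)) x).det = 0 →
      ∃ a b, 1 ≤ ‖(mat₁ (fun i j l => σ (T i j l)) x).adjugate a b‖) ∧
    ((mat₂ (fun i j l => σ (T i j l)) x).det = 0 →
      ∃ a b, 1 ≤ ‖(mat₂ (fun i j l => σ (T i j l)) x).adjugate a b‖) ∧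
    ((mat₃ (fun i j l => σ (T i j l)) x).det = 0 →
      ∃ a b, 1 ≤ ‖(mat₃ (fun i j l => σ (T i j l)) x).adjugate a b‖)

/-- The ideal of the local Zariski closure at `x ∈ L⁴` of the rational points of the surface
`D = 0`: the polynomials which vanish on the line through `y` for all rational points `y` of
the surface in some neighbourhood of `x` in projective space. -/
def localIdeal {K L : Type} [Field K] [NontriviallyNormedField L] (σ : K →+* L)
    (D : MvPolynomial (Fin 4) K) (x : Fin 4 → L) : Set (MvPolynomial (Fin 4) K) :=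
  {f : MvPolynomial (Fin 4) K |
    ∃ U ∈ nhds x, ∀ y : Fin 4 → K, y ≠ 0 → eval y D = 0 →
      (∃ c : L, c ≠ 0 ∧ (fun i => c * σ (y i)) ∈ U) →
      ∀ t : K, eval (t • y) f = 0}

/-- **Mazur's question for determinantal quartic surfaces at almost all places.** -/
theorem result :
    ∀ (K : Type) [Field K] [NumberField K] (T : Fin 4 → Fin 4 → Fin 4 → K),
      Irreducible (quartic T) → Nondegenerate T →
      -- the places
      (∃ B : Finset K, ∀ (L : Type) [NontriviallyNormedField L] [IsUltrametricDist L]
        (σ : K →+* L), (∀ b ∈ B, ‖σ b‖ ≤ 1) → NondegenerateReduction σ T) ∧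
      ∃ R : Finset (Fin 4 → K), (∀ r ∈ R, r ≠ 0 ∧ eval r (quartic T) = 0) ∧
        ∀ (L : Type) [NontriviallyNormedField L] [CompleteSpace L] [IsUltrametricDist L]
          (σ : K →+* L), DenseRange σ → NondegenerateReduction σ T →
          -- Mazur's question
          {J : Set (MvPolynomial (Fin 4) K) | ∃ x : Fin 4 → L, x ≠ 0 ∧
            eval₂ σ x (quartic T) = 0 ∧ J = localIdeal σ (quartic T) x}.Finite ∧
          -- the possible local closures
          (∀ x : Fin 4 → L, x ≠ 0 → eval₂ σ x (quartic T) = 0 →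
            localIdeal σ (quartic T) x = {f | quartic T ∣ f} ∨
            ∃ S ⊆ R, localIdeal σ (quartic T) x =
              {f | ∀ r ∈ S, ∀ t : K, eval (t • r) f = 0}) ∧
          -- the local closures at the rational points
          (∀ y : Fin 4 → K, y ≠ 0 → eval y (quartic T) = 0 → (∀ r ∈ R, ∀ c : K, y ≠ c • r) →
            localIdeal σ (quartic T) (fun i => σ (y i)) = {f | quartic T ∣ f}) := by
  intro K _ _ T hD hnd
  have hD' : quartic T = Run7.h846.MQ.detP T := rfl
  rw [hD'] at hD ⊢
  have hnd' : ∀ k, k < 3 → ∀ x : Fin 4 → AlgebraicClosure K, x ≠ 0 →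
      (Run7.h846.MQ.Mat (Run7.h846.MQ.bc K (Run7.h846.MQ.rotn T k)) x).adjugate ≠ 0 := by
    intro k hk x hx
    obtain ⟨h0, h1, h2⟩ := hnd x hx
    interval_cases k
    · exact h0
    · exact h1
    · exact h2
  constructor
  · obtain ⟨B, hB⟩ := Run7.h846.MQ.exists_places T hnd'
    refine ⟨B, ?_⟩
    intro L _ _ σ hσ
    letI : Algebra K L := σ.toAlgebra
    have hG := hB L hσ
    refine ⟨hG.tri, fun x hx1 hx2 => ⟨?_, ?_, ?_⟩⟩
    · exact hG.adj 0 x ⟨hx1, hx2⟩
    · exact hG.adj 1 x ⟨hx1, hx2⟩
    · exact hG.adj 2 x ⟨hx1, hx2⟩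
  · obtain ⟨R, hR, hB⟩ := Run7.h846.MQ.exists_points T hD hnd'
    refine ⟨R, hR, ?_⟩
    intro L _ _ _ σ hσ hred
    have : ProperSpace L := Pool.Agent.W279.Tri.properSpace_of_denseRange σ hσ
    letI : Algebra K L := σ.toAlgebra
    have hG : Run7.h846.MQ.GoodR L T := by
      refine ⟨hred.1, fun k x hx hdet => ?_⟩
      obtain ⟨h0, h1, h2⟩ := hred.2 x hx.1 hx.2
      have hk : Run7.h846.MQ.rotn T k = Run7.h846.MQ.rotn T (k % 3) := by
        have := Run7.h846.MQ.rotn_add_mul T (k % 3) (k / 3)
        rwa [Nat.mod_add_div] at this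
      rw [hk] at hdet ⊢
      have hk3 : k % 3 < 3 := Nat.mod_lt _ (by norm_num)
      generalize k % 3 = m at hdet hk3 ⊢
      interval_cases m
      · exact h0 hdet
      · exact h1 hdet
      · exact h2 hdet
    obtain ⟨h1, h2⟩ := hB L hG
    refine ⟨?_, fun x _ _ => h1 x, h2⟩
    have hfin : (insert {f : MvPolynomial (Fin 4) K | Run7.h846.MQ.detP T ∣ f}
        ((fun S : Finset (Fin 4 → K) =>
          {f : MvPolynomial (Fin 4) K | ∀ r ∈ S, ∀ t : K, eval (t • r) f = 0}) ''
            (R.powerset : Set (Finset (Fin 4 → K))))).Finite :=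
      (R.powerset.finite_toSet.image _).insert _
    refine hfin.subset ?_
    rintro J ⟨x, -, -, rfl⟩
    rcases h1 x with h | ⟨S, hS, h⟩
    · exact Or.inl h
    · exact Or.inr ⟨S, by simpa using hS, h.symm⟩

end Pool.Agent.Results.MP_f9f755_nt.DeterminantalQuartics
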