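import Pool.Agent.Run7.h846.OrbB

/-!
# Mazur's question for varieties with finitely many orbits under a linear group

`X` is a closed subvariety of `ℙⁿ` over a number field `K`, given by a set `S` of homogeneous
polynomials, `K → L` is the completion of `K` at any place, archimedean or not.  A family of linear
automorphisms of `X` is a square matrix `A(t)` of polynomials over `K` with `A(0) = 1` such that
`A(t)` maps the rational points of the cone over `X` to themselves.  We prove:

* all the local Zariski closures `Z_x`, `x ∈ X(L)`, are stable under all families of linear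
  automorphisms of `X` (over an algebraic closure of `K`);
* if the group generated by the members of families acts on `X` over an algebraic closure of `K`
  with finitely many orbits then the `Z_x` are finitely many: Mazur's question has a positive answer
  for `X` at all places.

Let `G` be a connected linear algebraic group over `K` which acts linearly on `ℙⁿ` and maps `X` to
itself.  As `G` is unirational over `K`, it is generated by rational curves through the identity,
that is, by families: if `G → PGL` is parametrised by `φ(u)`, take `φ(a + t b) φ(a)⁻¹` and clear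
the denominators.  So the first part says that the `Z_x` are `G`-stable, and the second part applies
if `G` has finitely many orbits on `X` over an algebraic closure of `K`: to all toric and spherical
varieties (linearized in some `ℙⁿ`), to Schubert varieties, to the varieties of (symmetric or skew)
matrices of bounded rank and to the `G`-stable subvarieties of `ℙ(V)` for the representations `V` of
`G × 𝔾_m` with finitely many orbits.  The rational points may form infinitely many orbits under
`G(K)`.
-/

set_option autoImplicit false

namespace Pool.Agent.Results.MP_f9f755_nt.FinitelyManyOrbits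

open MvPolynomial

/-- The vector `A(t) y`. -/
noncomputable def act {K : Type} [Field K] {n : ℕ} {B : Type} [CommRing B] [Algebra K B]
    (A : Matrix (Fin n) (Fin n) (Polynomial K)) (t : B) (y : Fin n → B) : Fin n → B :=
  (A.map fun a => Polynomial.aeval t a).mulVec y

/-- `A(t)` is a family of linear automorphisms of `X = {g = 0 for all g in S}`: `A(0) = 1`, and
`A(t)` maps the `K`-points of the cone over `X` to such points. -/
def IsFamily {K : Type} [Field K] {n : ℕ} (S : Set (MvPolynomial (Fin n) K))
    (A : Matrix (Fin n) (Fin n) (Polynomial K)) : Prop :=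
  (A.map fun a => Polynomial.eval 0 a) = 1 ∧
  ∀ y : Fin n → K, (∀ g ∈ S, eval y g = 0) → ∀ t : K, ∀ g ∈ S, eval (act A t y) g = 0

/-- `y'` is the image of `y` under a member of one of the families `A i` over an algebraic closure
of `K`, up to a nonzero factor. -/
def Step {K : Type} [Field K] {n : ℕ} {ι : Type}
    (A : ι → Matrix (Fin n) (Fin n) (Polynomial K)) (y y' : Fin n → AlgebraicClosure K) : Prop :=
  ∃ (i : ι) (t c : AlgebraicClosure K), c ≠ 0 ∧ y' = c • act (A i) t y

/-- Every point of `X` over an algebraic closure of `K` can be moved by finitely many steps to one of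
finitely many points, and back. -/
def FinitelyManyOrbits {K : Type} [Field K] {n : ℕ} {ι : Type} (S : Set (MvPolynomial (Fin n) K))
    (A : ι → Matrix (Fin n) (Fin n) (Polynomial K)) : Prop :=
  ∃ P : Set (Fin n → AlgebraicClosure K), P.Finite ∧
    ∀ y : Fin n → AlgebraicClosure K, y ≠ 0 → (∀ g ∈ S, aeval y g = 0) →
      ∃ p ∈ P, Relation.ReflTransGen (Step A) y p ∧ Relation.ReflTransGen (Step A) p y

/-- The ideal of the local Zariski closure `Z_x`, as in the frozen statement `S19033`. -/
def localIdeal {K L : Type} [Field K] [NontriviallyNormedField L] {n : ℕ} (σ : K →+* L)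
    (S : Set (MvPolynomial (Fin n) K)) (x : Fin n → L) : Set (MvPolynomial (Fin n) K) :=
  {f : MvPolynomial (Fin n) K |
    ∃ U ∈ nhds x, ∀ y : Fin n → K, y ≠ 0 →
      (∀ g ∈ S, eval y g = 0) →
      (∃ c : L, c ≠ 0 ∧ (fun i => c * σ (y i)) ∈ U) →
      ∀ t : K, eval (t • y) f = 0}

/-- **Mazur's question for varieties with finitely many orbits, at all places.** -/
theorem result :
    ∀ (K : Type) [Field K] [NumberField K] (L : Type) [NontriviallyNormedField L]
      (σ : K →+* L), DenseRange σ →
    ∀ (n : ℕ) (S : Set (MvPolynomial (Fin (n + 1)) K)),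
      (∀ f ∈ S, ∃ d : ℕ, f.IsHomogeneous d) →
    ∀ (ι : Type) (A : ι → Matrix (Fin (n + 1)) (Fin (n + 1)) (Polynomial K)),
      (∀ i, IsFamily S (A i)) →
      -- the local closures are stable under the families
      (∀ x : Fin (n + 1) → L, ∀ y y' : Fin (n + 1) → AlgebraicClosure K, Step A y y' →
        (∀ f ∈ localIdeal σ S x, aeval y f = 0) → ∀ f ∈ localIdeal σ S x, aeval y' f = 0) ∧
      -- finitely many orbits
      (FinitelyManyOrbits S A →
        {J : Set (MvPolynomial (Fin (n + 1)) K) |
          ∃ x : Fin (n + 1) → L, x ≠ 0 ∧ (∀ g ∈ S, eval₂ σ x g = 0) ∧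
            J = localIdeal σ S x}.Finite) := by
  intro K _ _ L _ σ hσ n S hS ι A hA
  have hA0 : ∀ i j l, (A i j l).eval 0 = if j = l then 1 else 0 := by
    intro i j l
    have := congrFun (congrFun (hA i).1 j) l
    rw [Matrix.map_apply, Matrix.one_apply] at this
    exact this
  have hAS : ∀ i, ∀ y : Fin (n + 1) → K, (∀ g ∈ S, eval y g = 0) →
      ∀ t : K, ∀ g ∈ S, eval (Run7.h846.OB.mv (A i) t y) g = 0 := fun i => (hA i).2
  have hmem : ∀ (x : Fin (n + 1) → L) (f : MvPolynomial (Fin (n + 1)) K),
      f ∈ localIdeal σ S x ↔ f ∈ Run7.h846.OB.JI σ S x := by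
    intro x f
    constructor
    · rintro ⟨U, hU, hf⟩
      exact ⟨U, hU, fun y hy => hf y hy.1 hy.2.1 hy.2.2⟩
    · rintro ⟨U, hU, hf⟩
      exact ⟨U, hU, fun y h1 h2 h3 => hf y ⟨h1, h2, h3⟩⟩
  refine ⟨fun x y y' hstep hy f hf => ?_, ?_⟩
  · have h1 : y ∈ Run7.h846.OB.VV σ S x := fun f hf => hy f ((hmem x f).2 hf)
    have h2 : Run7.h846.OB.Step A y y' := hstep
    exact Run7.h846.OB.VV_step hσ hA0 hAS h1 h2 f ((hmem x f).1 hf)
  · rintro ⟨P, hP, horb⟩
    have hfin := Run7.h846.OB.finite_JI hσ hS hA0 hAS hP horb
    refine (hfin.image fun I : Ideal (MvPolynomial (Fin (n + 1)) K) =>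
      (I : Set (MvPolynomial (Fin (n + 1)) K))).subset ?_
    rintro J ⟨x, -, -, rfl⟩
    refine ⟨_, ⟨x, rfl⟩, ?_⟩
    ext f
    exact (hmem x f).symm

end Pool.Agent.Results.MP_f9f755_nt.FinitelyManyOrbits
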