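import Mathlib
import Pool.Agent.Results.MP_214270_ag.SparsePointsCriterion
import Pool.Agent.Run7.h28.ST.Cone

/-!
# Local Zariski closures of rational points at all places, from sparse points at one place

Let `X` be a projective variety over a number field `K` with a finite morphism `x : X → ℙ^(n-1)`, and
let `v` be a place of `K`.  We consider the points of `X (K)` above sparse points of `ℙ^(n-1)`: the
coordinates `x_l` are sums of `k` elements of a finitely generated group `Γ` with coefficients of
bounded height, and `x` is unramified near `(x_l)`, `v`-adically (`IsNearUnramified`); the other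
coordinates are arbitrary.

**Theorem.** There are finitely many subvarieties `Y` of `X` which contain all these points, such that
for each `Y` the following points `P` are Zariski dense in `Y`: for **all** places `w` of `K`, every
`w`-adic neighbourhood of `P` contains a Zariski dense set of `K`-points of `Y`.

So `Y ⊆ Z_P` for these `P` and all places `w`, where `Z_P` is the local Zariski closure of the question
(the intersection of the Zariski closures of the sets `X (K) ∩ U`, `U` a `w`-adic neighbourhood of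
`P`).  In particular, if the points above sparse points near-unramified at **one** place are Zariski
dense in `X`, then `Z_P = X` at **all** places for a Zariski dense set of points `P` of `X (K)`.

The definitions `Place`, `absv`, `eqn`, `fibre`, `IsPoint`, `IsUnirational`, `IsDense`, `IsSparse`,
`IsCloseTo`, `IsNearSeparable` and `IsNearUnramified` are those of my result
`MP_214270_ag.SparsePointsCriterion`.
-/

open Height NumberField IsDedekindDomain

namespace Pool.Agent.Results.MP_f9f755_nt.SparseLocalClosures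

open Pool.Agent.Results.MP_214270_ag.SparsePointsCriterion Pool.Agent.Run7.h28.ST

/-- The `K`-points of the variety with the ideal `I` which have homogeneous coordinates `w`-adically
at distance at most `ε` from the coordinates of `P` are Zariski dense in the variety, for all `ε > 0`,
and already the points among them with the following property are dense: the coordinates `x_l` are
sums of `k` elements of `Γ` with coefficients of height at most `M` and the `w`-adic distance of `x`
from the coordinates of `P` is at most `M h ^ (-δ)`, where `h = ∏ H (x_l)`. -/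
def LocallyDense {K : Type} [Field K] [NumberField K] {n m : ℕ}
    (I : Ideal (MvPolynomial (Fin n ⊕ Fin m) K)) (w : Place K) (P : Fin n ⊕ Fin m → K) : Prop :=
  ∃ Γ : Subgroup Kˣ, Γ.FG ∧ ∃ (k : ℕ) (M δ : ℝ), 0 < δ ∧ ∀ ε : ℝ, 0 < ε →
    IsDense (fun x y => IsPoint I (Sum.elim x y) ∧
      IsCloseTo Γ w k δ M (fun l => P (Sum.inl l)) x ∧
      ∀ s, absv w (Sum.elim x y s - P s) ≤ ε) I

lemma locally_dense {K : Type} [Field K] [NumberField K] {n m : ℕ}
    {I : Ideal (MvPolynomial (Fin n ⊕ Fin m) K)} (hI : I.IsPrime) (hU : IsUnirational I)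
    (hne : ∃ s, (MvPolynomial.X s : MvPolynomial (Fin n ⊕ Fin m) K) ∉ I) :
    IsDense (fun x y => IsPoint I (Sum.elim x y) ∧ Sum.elim x y ≠ 0 ∧
      ∀ w : Place K, LocallyDense I w (Sum.elim x y)) I := by
  classical
  obtain ⟨r, Q, hQ1, hQ2⟩ := hU
  obtain ⟨s, hs⟩ := hne
  intro G ⟨e, he⟩ hv
  by_contra hG
  have hD : G * MvPolynomial.X s ∉ I := fun h => (hI.mem_or_mem h).elim hG hs
  obtain ⟨t0, ht0⟩ : ∃ t0 : Fin r → K,
      MvPolynomial.eval t0 (MvPolynomial.aeval Q (G * MvPolynomial.X s)) ≠ 0 := by
    by_contra hcon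
    push Not at hcon
    refine hD (hQ2 _ ⟨e + 1, he.mul (MvPolynomial.isHomogeneous_X K s)⟩
      (MvPolynomial.funext fun x => ?_))
    rw [hcon x, map_zero]
  rw [eval_aeval_eq, map_mul, MvPolynomial.eval_X] at ht0
  have hse : Sum.elim (fun l => MvPolynomial.eval t0 (Q (Sum.inl l)))
      (fun i => MvPolynomial.eval t0 (Q (Sum.inr i))) = fun i => MvPolynomial.eval t0 (Q i) := by
    funext i
    rcases i with l | i <;> rfl
  have h1 := hv (fun l => MvPolynomial.eval t0 (Q (Sum.inl l)))
    (fun i => MvPolynomial.eval t0 (Q (Sum.inr i))) ⟨?_, ?_, ?_⟩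
  · rw [hse] at h1
    exact ht0 (by rw [h1, zero_mul])
  · rw [hse]
    intro G' hG'
    rw [← eval_aeval_eq, hQ1 G' hG', map_zero]
  · rw [hse]
    intro h0
    exact ht0 (by rw [congrFun h0 s, Pi.zero_apply, mul_zero])
  · rw [hse]
    intro w
    obtain ⟨Γ, hΓ, k, M, δ, hM, hδ, H⟩ := conv_local w I Q hQ1 hQ2 t0
    refine ⟨Γ, hΓ, k, M, δ, hδ, fun ε hε G hG hv => H ε hε G hG fun x y a1 a2 a3 a4 a5 => ?_⟩
    refine hv x y ⟨a1, ⟨a2, fun l => ?_⟩, fun i => ?_⟩
    · rw [absv_eq]
      exact a3 l
    · rw [absv_eq]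
      rcases i with l | i
      · exact a4 l
      · exact a5 i

/-- **Theorem.** Let `K` be a number field and `X` a closed subscheme of projective space over `K` with
the homogeneous coordinates `x_1, …, x_n`, `y_1, …, y_m` and the homogeneous ideal `I`, such that each
`y_i` satisfies an equation `F_i (x, y_i) = 0` on `X`, where `F_i` is monic in `y_i` (so that
`x : X → ℙ^(n-1)` is finite).  Let `v` be a place of `K`, `Γ` a finitely generated subgroup of `Kˣ`, and
let `k`, `B`, `M`, `δ > 0` be given.

There is a finite set `𝓨` of closed integral subschemes `Y` of `X` (given by their homogeneous prime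
ideals `J ⊇ I`) with the following properties.

1. Each point of `X (K)` which has coordinates `(x : y)` such that each `x_l` is a sum of `k` elements of
  `Γ` with coefficients of height at most `M` and the polynomials `F_i (x, Y)` are, after scaling by
  elements of `Γ`, `v`-adically near separable polynomials over `K` lies on some `Y ∈ 𝓨`.
2. For all `Y ∈ 𝓨` the points `P` of `Y (K)` with the following property are Zariski dense in `Y`: for
  **all** places `w` of `K` and all `ε > 0` the points of `Y (K)` which have coordinates `w`-adically at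
  distance at most `ε` from those of `P` are Zariski dense in `Y`, and already the points among them
  above sparse points of `ℙ^(n-1)` which tend to the image of `P` with polynomial rate
  (`LocallyDense`).

3. If `I` is prime and the points in (1) are Zariski dense in `X`, then the points `P` of `X (K)` with
  the property in (2) for `Y = X` are Zariski dense in `X`: at all places `w`, `Z_P = X`. -/
theorem result (K : Type) [Field K] [NumberField K] (v : Place K) (n m : ℕ)
    (I : Ideal (MvPolynomial (Fin n ⊕ Fin m) K))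
    (hhom : ∀ G ∈ I, ∀ e, MvPolynomial.homogeneousComponent e G ∈ I)
    (F : Fin m → Polynomial (MvPolynomial (Fin n) K)) (hFm : ∀ i, (F i).Monic)
    (hFI : ∀ i, eqn (F i) i ∈ I) (Γ : Subgroup Kˣ) (hΓ : Γ.FG) (k : ℕ) (B M δ : ℝ)
    (hδ : 0 < δ) :
    (∃ 𝓨 : Set (Ideal (MvPolynomial (Fin n ⊕ Fin m) K)), 𝓨.Finite ∧
      (∀ (x : Fin n → K) (y : Fin m → K), Sum.elim x y ≠ 0 → IsPoint I (Sum.elim x y) →
        IsNearUnramified Γ v k B δ M F x → ∃ J ∈ 𝓨, IsPoint J (Sum.elim x y)) ∧
      ∀ J ∈ 𝓨, J.IsPrime ∧ (∀ G ∈ J, ∀ e, MvPolynomial.homogeneousComponent e G ∈ J) ∧ I ≤ J ∧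
        IsDense (fun x y => IsPoint J (Sum.elim x y) ∧ Sum.elim x y ≠ 0 ∧
          ∀ w : Place K, LocallyDense J w (Sum.elim x y)) J) ∧
    (I.IsPrime → (∃ s, (MvPolynomial.X s : MvPolynomial (Fin n ⊕ Fin m) K) ∉ I) →
      IsDense (fun x y => IsPoint I (Sum.elim x y) ∧ IsNearUnramified Γ v k B δ M F x) I →
      IsDense (fun x y => IsPoint I (Sum.elim x y) ∧ Sum.elim x y ≠ 0 ∧
        ∀ w : Place K, LocallyDense I w (Sum.elim x y)) I) := by
  classical
  have hone : ∀ x : Fin n → K, 1 ≤ ∏ l, mulHeight₁ (x l) := fun x => by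
    have g2 := Finset.prod_le_prod (s := Finset.univ) (f := fun _ => (1 : ℝ))
      (g := fun l => mulHeight₁ (x l)) (fun _ _ => zero_le_one)
      (fun l _ => one_le_mulHeight₁ (x l))
    rwa [Finset.prod_const_one] at g2
  obtain ⟨𝓣, t1, t2, t3⟩ := Pool.Agent.Run7.h28.ST.structureS n m k (max B 1) δ (max M 1) hδ Γ
    hΓ v I F hFm hFI
  have cover : ∀ (x : Fin n → K) (y : Fin m → K), IsPoint I (Sum.elim x y) →
      IsNearUnramified Γ v k B δ M F x →
      ∃ P ∈ 𝓣, ∃ u : Fin P.1 → Kˣ, (∀ l, u l ∈ Γ) ∧ ∀ i, Sum.elim x y i = evU u (P.2 i) := by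
    rintro x y a2 ⟨a3, a5⟩
    have hx1 := hone x
    have hx0 : (0 : ℝ) < ∏ l, mulHeight₁ (x l) := by linarith
    have hMB : M * (∏ l, mulHeight₁ (x l)) ^ B ≤
        max M 1 * (∏ l, mulHeight₁ (x l)) ^ (max B 1) :=
      mul_le_mul (le_max_left _ _) (Real.rpow_le_rpow_of_exponent_le hx1 (le_max_left _ _))
        (Real.rpow_pos_of_pos hx0 _).le (le_trans zero_le_one (le_max_right _ _))
    refine t3 x y (∏ l, mulHeight₁ (x l)) hx1 a2 (fun l => ?_) (fun l => ?_) fun i => ?_
    · obtain ⟨a, u, g1, g2, g3⟩ := a3 l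
      exact ⟨a, u, fun r => (g1 r).trans (le_max_left _ _), g2, g3⟩
    · have g1 : mulHeight₁ (x l) ≤ ∏ l, mulHeight₁ (x l) := by
        have g2 := Finset.prod_le_prod (s := Finset.univ.erase l) (f := fun _ => (1 : ℝ))
          (g := fun l => mulHeight₁ (x l)) (fun _ _ => zero_le_one)
          (fun l _ => one_le_mulHeight₁ (x l))
        rw [Finset.prod_const_one] at g2
        rw [← Finset.mul_prod_erase Finset.univ (fun l => mulHeight₁ (x l))
          (Finset.mem_univ l)]
        exact le_mul_of_one_le_right (mulHeight₁_pos _).le g2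
      have g3 : (∏ l, mulHeight₁ (x l)) ≤ (∏ l, mulHeight₁ (x l)) ^ (max B 1) := by
        conv_lhs => rw [← Real.rpow_one (∏ l, mulHeight₁ (x l))]
        exact Real.rpow_le_rpow_of_exponent_le hx1 (le_max_right _ _)
      exact (g1.trans g3).trans (le_mul_of_one_le_left (Real.rpow_pos_of_pos hx0 _).le
        (le_max_right _ _))
    · obtain ⟨a, z, E, b1, b2, b3, b4, b6, b7, b8, b9⟩ := a5 i
      rw [absv_eq] at b9
      exact ⟨a, z, E, b1, b2, b3, b4, fun j => (b6 j).trans (le_max_left _ _), b7.trans hMB,
        b8.trans hMB, fun j hj => (b9 j hj).trans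
        (mul_le_mul_of_nonneg_right (le_max_left _ _) (Real.rpow_pos_of_pos hx0 _).le)⟩
  refine ⟨?_, fun hI hne hdense => ?_⟩
  · choose Q hQ1 hQ2 using fun P : Fam K (Fin n ⊕ Fin m) => torus_cone P.2
    refine ⟨{J | (∃ P ∈ 𝓣, J = coneIdeal (Q P)) ∧
      ∃ s, (MvPolynomial.X s : MvPolynomial (Fin n ⊕ Fin m) K) ∉ J},
      (t1.image fun P => coneIdeal (Q P)).subset ?_, ?_, ?_⟩
    · rintro J ⟨⟨P, hP, rfl⟩, -⟩
      exact ⟨P, hP, rfl⟩
    · intro x y h0 hxy hnear
      obtain ⟨P, hP, u, -, hu⟩ := cover x y hxy hnear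
      have hz : Sum.elim x y = fun i => evU u (P.2 i) := funext hu
      have hpt : IsPoint (coneIdeal (Q P)) (Sum.elim x y) := by
        intro G hG
        rw [hz]
        exact hQ1 P u G hG
      refine ⟨coneIdeal (Q P), ⟨⟨P, hP, rfl⟩, ?_⟩, hpt⟩
      obtain ⟨s, hs⟩ := Function.ne_iff.1 h0
      refine ⟨s, fun h => hs ?_⟩
      have := hpt _ h
      rwa [MvPolynomial.eval_X] at this
    · rintro J ⟨⟨P, hP, rfl⟩, hne⟩
      exact ⟨cone_prime _, cone_comp _, hQ2 P I hhom (t2 P hP),
        locally_dense (cone_prime _) ⟨P.1, Q P, cone_le _, fun G hG h0 => cone_of_homog _ hG h0⟩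
          hne⟩
  · have hU : IsUnirational I := by
      obtain ⟨P, hP, hdom⟩ := Pool.Agent.Run7.h28.ST.dominant t1 hI (Γ := Γ)
        (Z := fun z => ∃ x y, z = Sum.elim x y ∧ IsPoint I (Sum.elim x y) ∧
          IsNearUnramified Γ v k B δ M F x) (by
          rintro z ⟨x, y, rfl, a2, a3⟩
          exact cover x y a2 a3)
        (by
          intro G hG hv
          exact hdense G hG fun x y hxy => hv _ ⟨x, y, rfl, hxy.1, hxy.2⟩)
      exact Pool.Agent.Run7.h28.ST.unir_of_torus hhom P.2 (t2 P hP) hdom
        fun u G => Pool.Agent.Run7.h28.ST.evU_aeval u P.2 G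
    exact locally_dense hI hU hne

end Pool.Agent.Results.MP_f9f755_nt.SparseLocalClosures
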